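import Mathlib
import Pool.Agent.Q171.EX.Dual

/-!
# Fibrancy of `Ex²` of a nerve is not invariant under passing to the opposite category

The answer to Q1 of MP_bcd555_gt is positive, already for a poset `C` with five elements
`0 < 1 > 2 < 3 > 4`: the simplicial set `Ex² N C` is a Kan complex and `Ex² N (C^op)` is not.

Every element of `C` has a common upper bound with the middle element `2`, in a monotone way; this
is enough to fill all horns in `Ex² N C`.  The opposite poset is the fence `0 > 1 < 2 > 3 < 4`, for
which the starting library (`H351R3`) proves the failure of the Kan condition.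

The functor `SSet.ex` (the right adjoint of barycentric subdivision), the nerve and the predicate
`SSet.KanComplex` are those of Mathlib.
-/

namespace Pool.Agent.Results.MP_bcd555_gt.FiveElementFence

open CategoryTheory Pool.Agent.H351R3 Pool.Agent.Q171.EX

/-- The opposite fence is finite. -/
theorem finite_M5 : Finite M5 := by
  have h : Function.Injective (fun x : Fence 2 => (⟨x.val, x.nonneg, x.le_two_mul⟩ :
      Set.Icc (0 : ℤ) (2 * (2 : ℕ)))) := by
    intro x y hxy
    exact Fence.ext (congrArg (fun z : Set.Icc (0 : ℤ) (2 * (2 : ℕ)) => (z : ℤ)) hxy)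
  exact (Finite.of_injective _ h : Finite (Fence 2))

/-- There is a category `C`, in fact a finite poset, such that `Ex² N C` is a Kan complex and
`Ex² N (C^op)` is not. -/
theorem result : ∃ (C : Type) (_ : PartialOrder C) (_ : Finite C),
    SSet.KanComplex (SSet.ex.{0}.obj (SSet.ex.{0}.obj (nerve C))) ∧
      ¬ SSet.KanComplex (SSet.ex.{0}.obj (SSet.ex.{0}.obj (nerve Cᵒᵖ))) :=
  ⟨M5, inferInstance, finite_M5, kan_M5, not_kan⟩

end Pool.Agent.Results.MP_bcd555_gt.FiveElementFence
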